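import Pool.Agent.Helper79.KQ.Asm
import Pool.Agent.Helper21.KQ.Main

/-!
# Compatible systems with large residual representations: cyclic covers of all degrees, all dimensions, all `ℓ`

A criterion for compatible systems of `ℓ`-adic representations over number fields (or finitely generated fields) whose parts
`V_x` are not self-dual: if for every `x` there is ONE `ℓ` for which the residual representation of `V_x` is large (of type
`SL`, `SU`, `Sp` or `Ω`, over any finite field of characteristic greater than the dimension), then for EVERY `ℓ` the Zariski
closure of the image contains the product of the special linear groups of the parts. The residual representations may be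
self-dual, and those of different `x` may be isomorphic; the parts are separated by the Hodge-Tate numbers.

The cyclic covers. Let `k` be a finitely generated field of characteristic zero that contains the roots of unity of order `M`,
let `f = f₀ +` terms of lower weight in `k[x_1, …, x_m]`, `m ≥ 2`, where `f₀` is quasi-homogeneous with an isolated critical
point whose spectrum `y i` contains no integer; for `f₀ = ∑ x_i ^ (a_i)` the `y i` are the sums `∑ i_k / a_k`,
`0 < i_k < a_k`; for `m = 2` this means that `a_1, a_2` are coprime. Suppose that `B : f = 0` is smooth and that the number `N`
of the `y i` is at least five. Let `A` be the common denominator of the `y i`, and let `U` be the affine variety `w ^ M = f`.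
For a character `x` of `μ_M` whose order does not divide `A` the part `V_x` of `H^m(U)` is pure of weight `m` and of dimension
`N`. `IsCyclic`: the parts for the characters whose order is divisible by a prime number `r > 4 A`, one of each pair of
conjugate characters; this is all of `H^m(U)` if all prime factors of `M` are greater than `4 A`.

* Let `r > 4 A` be a prime factor of the order of `x` and `x = x' x''`, `x'` of order prime to `r`, `x''` of order a power
  of `r`. Modulo the places over `r` the Kummer sheaf of `x''` is trivial: the reduction of `V_x` (for `ℓ = r`) is that of
  `V_x' = H^m_c(𝔸^m ∖ B, L_x')`, and it is `H^(m - 1)(B, 𝔽_r)` if `x' = 1`. `IsBigAt` holds if the image of Galois on it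
  contains `SL_N` or `SU_N` over a finite field (the order of `x'` greater than two) or `Ω_N` or `Sp_N` (the order of `x'` one
  or two); this is possible only if `V_x'` is pure, for example if the order of `x'` is prime to `A`.
* Let `M = M' r ^ e`, `M'` prime to `A r`. There are finitely many conditions, one for every character `x'` of order dividing
  `M'`; they do not depend on `e`. They hold for `f` outside a thin set (monodromy groups generated by reflections or
  transvections, Hilbert's irreducibility theorem; for `m` odd or `M'` even `f₀` must not be a simple singularity).
* Let `m = 2`, `M' = 1`, and let `f` have coefficients in a number field `k₀`. There is one condition: the image of the Galois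
  group of `k₀` on the points of order `r` of the Jacobian `J_B` contains `Sp_N(𝔽_r)`, a perfect group, so that the roots of
  unity of order `r ^ e` can be adjoined. If `J_B` has only the trivial endomorphisms (over the algebraic closure) and if its
  dimension `N / 2` is odd or `6`, then the condition holds for all large `r` (Serre).
* An explicit example: `k₀ = ℚ`, `f = x ^ 3 + y ^ 7 + x y + y ^ 2 + y`, `N = 12`, `A = 21`. The curve `B` has good reduction at
  `2` and `3`; the characteristic polynomials of the Frobenius elements (from the numbers of points over the fields with
  `2 ^ k` and `3 ^ k` elements, `k ≤ 6`) are
  `T^12 - T^11 + 2T^9 - T^8 - T^7 + 6T^6 - 2T^5 - 4T^4 + 16T^3 - 32T + 64` and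
  `T^12 - T^11 + 6T^9 + 18T^6 + 162T^3 - 243T + 729`. Their Galois groups are the Weyl group `W(C_6)` of order `46080`, and
  their real subfields are not isomorphic (the prime `11`), so that `J_B` has only the trivial endomorphisms. The theorem
  applies to the surfaces `w ^ (r ^ e) = f`, for all large `r`, all `e` and all `ℓ`. It applies also for `r = 97` and for every
  prime `r > 84` modulo which one of the two polynomials is irreducible: modulo `71` the curve `B` has one singular point, an
  ordinary double point, where the critical value of `f` is divisible by `71` exactly once, so that the image of Galois
  contains a transvection; a Frobenius element acts irreducibly and has trace `1`, so that the group generated by the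
  transvections is `Sp_12(𝔽_r)` (Kantor, Zalesskii and Serezhkin).
* `HasHT`: for every `ℓ` and every `t` prime to `M` (an embedding of the field of the roots of unity, which extends to `k`) the
  Hodge-Tate cocharacter (Sen) of `H^m(U)`; it lies in the Zariski closure of the image of every subgroup of finite index. Its
  numbers on `V_x` are the numbers of `i` with a given integral part of `y i + s / M`, `s = t x` modulo `M`.
* `IsSystem.det`: a subspace `W` of `V_x` stable under a subgroup of finite index; its determinant is a Hodge-Tate character,
  comes from a Hecke character and has companions `ψ` for all `ℓ`; the values of `ψ` at the Frobenius elements are products of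
  `dim W` eigenvalues of Frobenius on `V_x`, and by Chebotarev's theorem this is so for all elements. The characteristic
  polynomials of Frobenius do not depend on `ℓ`, since `H^m_c(𝔸^m ∖ B, L_x)` is the only cohomology group of the sheaf `L_x`.
* `IsSystem.frob`: (Serre) for finitely many `ℓ` and the Frobenius elements outside a set of density zero, some power of the
  Frobenius element lies in the subgroup and generates a group whose Zariski closure is a maximal torus of the identity
  component, for each of these `ℓ`; an equation between its eigenvalues, which are algebraic numbers and do not depend on `ℓ`,
  is an equation for the eigenvalues, in some order, of every element of the identity component. For a given `ℓ` the theorem is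
  used for the system of this `ℓ` and the finitely many `r`.

Conclusion: for ONE `f` which satisfies these conditions, for all `e` and for EVERY prime `ℓ` the identity component of the
Zariski closure of the image of Galois contains the product of the groups `SL(V_x)`. If `f₀` can be deformed, with the same
weights, to a sum of powers, then this is the motivic Galois group of the sum of the `V_x`, since the determinants are of CM
type (deformation to a point of Fermat type, André). Every Tate class on a product of fewer than `N` of the motives in question
comes from graphs of automorphisms and the polarisation. For `m = 2`, `f₀ = x ^ a + y ^ b`, `1 / a + 1 / b < 1 / 2` the surfaces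
are not of abelian type (some `V_x` has `h^(2,0)` and `h^(0,2)` different from zero).

Remarks. Subgroups of finite index which are not open are harmless: the closure of the image of such a subgroup is open. The
theorem for arbitrary separated numbers is `Pool.Agent.Helper79.KQ.system`.
-/

namespace Pool.Agent.Results.MP_b8862a_ag.ResidualCovers

open Pool.Agent.Helper79.KN Pool.Agent.Helper79.KQ

theorem result {Γ X T n I : Type} {K : I → Type} [Group Γ] [Fintype X] [DecidableEq X] [Fintype n] [DecidableEq n]
    [∀ i, Field (K i)] [∀ i, IsAlgClosed (K i)] [∀ i, CharZero (K i)] (h : T → X → ℤ → ℕ) (ρ : ∀ i, Rep Γ X n (K i))
    (h4 : 4 < Fintype.card n) (hh : IsCyclic n h) (hH : ∀ i, HasHT (ρ i) h) (hC : IsSystem ρ)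
    (hB : ∀ x, ∃ i, IsBigAt (ρ i) x) (i : I) : IsFull (ρ i) :=
  system h4 (Pool.Agent.Helper21.KQ.isSep_cyclic hh) hH hC hB i

end Pool.Agent.Results.MP_b8862a_ag.ResidualCovers
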