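import Pool.Agent.Helper79.KN.Final

/-!
# The last equality for towers of cyclic covers, all dimensions, all `ℓ`

A criterion for compatible systems of `ℓ`-adic representations over number fields (or finitely generated fields) whose parts
are not self-dual: if modulo ONE prime the image of Galois contains a symplectic or orthogonal group over a prime field, then
for EVERY `ℓ` the Zariski closure of the image contains the product of the special linear groups of the parts.

The towers. Let `k` be a finitely generated field of characteristic zero that contains the roots of unity of order `r ^ e`, let
`f = f₀ +` terms of lower weight in `k[x_1, …, x_m]`, `m ≥ 2`, where `f₀` is quasi-homogeneous with an isolated critical point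
whose spectrum `y i` contains no integer; for `f₀ = ∑ x_i ^ (a_i)` the `y i` are the sums `∑ i_k / a_k`, `0 < i_k < a_k`; for
`m = 2` this means that `a_1, a_2` are coprime. Suppose that `B : f = 0` is smooth, that the number `N` of the `y i` is at least
five, and let `r > 2 A` be a prime number, `A` the common denominator of the `y i`. Let `U_e` be the affine variety
`w ^ (r ^ e) = f`. Its cohomology `H^m(U_e)` is pure of weight `m`, it is the sum of its parts `V_x` for the characters `x ≠ 1`
of `μ_(r ^ e)`, and all `V_x` have the dimension `N`.

* The reduction of `V_x` modulo the prime over `r` (for `ℓ = r`) is `H^(m - 1)(B, 𝔽_r)`, for every `x` (the Kummer sheaf of `x`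
  is trivial modulo this prime and `H^m_c(𝔸^m ∖ B, 𝔽_r) = H^(m - 1)_c(B, 𝔽_r)`), with a perfect symmetric (`m` odd) or
  alternating (`m` even) form. `IsBig` holds if the image of Galois contains `Ω_N(𝔽_r)`, respectively `Sp_N(𝔽_r)`: an isometry
  `A` with `(A - 1) ^ 2 = 0` is the square of a power of itself. For the general `f` this is true (monodromy and Hilbert's
  irreducibility theorem; for `m` odd `f₀` must not be a simple singularity), for `m = 2` it is true for all large `r` if `J_B`
  has only the trivial endomorphisms and there is one place where `B` has one ordinary double point (Hall).
* `HasHT`: for every `ℓ` and every `t` prime to `r` (an embedding of the field of the roots of unity, which extends to `k`) the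
  Hodge-Tate cocharacter (Sen) of `H^m(U_e)`; it lies in the Zariski closure of the image of every subgroup of finite index. Its
  numbers on `V_x` are the numbers of `i` with a given integral part of `y i + s / r ^ e`, `s = t x` modulo `r ^ e`.
* `IsCompat.det`: a subspace `W` of `V_x` stable under a subgroup of finite index; its determinant is a Hodge-Tate character,
  comes from a Hecke character and has an `r`-adic companion `ψ`; the values of `ψ` at the Frobenius elements are products of
  `dim W` eigenvalues of Frobenius on `V_x`, and by Chebotarev's theorem this is so for all elements. The characteristic
  polynomials of Frobenius do not depend on `ℓ`, since `H^m_c(𝔸^m ∖ B, L_x)` is the only cohomology group of the sheaf `L_x`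
  (`IsCompat` refers to one isomorphism of the two algebraically closed coefficient fields).
* `IsCompat.frob`: (Serre) for the Frobenius elements outside a set of density zero, some power generates a group whose Zariski
  closure is a maximal torus of the identity component; an equation between its eigenvalues is an equation for the eigenvalues,
  in some order, of every element of the identity component.

Conclusion: for EVERY prime `ℓ` and every `e` the identity component of the Zariski closure of the image of Galois on
`H^m(U_e)` contains the product of the groups `SL(V_x)` over the pairs of conjugate characters. If `f₀` can be deformed, with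
the same weights, to a sum of powers, then it is the motivic Galois group, since the determinants are of CM type (deformation
to a point of Fermat type, André). Every Tate class on a product of fewer than `N` of the varieties in question comes from
graphs of automorphisms and the polarisation. For `m = 2`, `f₀ = x ^ a + y ^ b`, `1 / a + 1 / b < 1 / 2` the surfaces are not of
abelian type (some `V_x` has `h^(2,0)` and `h^(0,2)` different from zero).

Remarks. Exponents `2 r ^ e` for a polynomial `g` whose spectrum contains no half integers are the case `f = x_0 ^ 2 + g`.
Subgroups of finite index which are not open are harmless: the closure of the image of such a subgroup is open. The criterion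
for arbitrary separated numbers is `Pool.Agent.Helper79.KN.criterion`.
-/

namespace Pool.Agent.Results.MP_b8862a_ag.ResidualTowers

open Pool.Agent.Helper79.KN

theorem result {Γ X T n K₀ K : Type} [Group Γ] [Fintype X] [DecidableEq X] [Fintype n] [DecidableEq n] [Field K₀]
    [IsAlgClosed K₀] [CharZero K₀] [Field K] [IsAlgClosed K] [CharZero K] {r : ℕ} [Fact r.Prime]
    (O : ValuationSubring K₀) (j : ZMod r →+* IsLocalRing.ResidueField O) (h : T → X → ℤ → ℕ) (ρ₀ : Rep Γ X n K₀)
    (h4 : 4 < Fintype.card n) (hr : Fintype.card n < r) (hh : IsTower n r h) (hB : IsBig ρ₀ O r j)
    (hH : HasHT ρ₀ h) : IsFull ρ₀ ∧ ∀ ρ : Rep Γ X n K, HasHT ρ h → IsCompat ρ₀ ρ → IsFull ρ :=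
  criterion O j h4 hr (isSep_of_tower (Fact.out : r.Prime) hh) hB hH

end Pool.Agent.Results.MP_b8862a_ag.ResidualTowers
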